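import Pool.Agent.H34.FQ.Targets

/-!
# Pairs of vectors with small minors which are proportional modulo `g`
(row PAV of the board `hfq_modules`, helper82)
-/

set_option autoImplicit false

open Finset Pool.Agent.H32.RQ Pool.Agent.H34.FQ

namespace Pool.Agent.H82.HFQ

/-- the set of PAI -/
def PS {s : ℕ} (i : Fin s) (B D : ℕ) : Set ((Fin s → ℤ) × (Fin s → ℤ)) :=
  {q : (Fin s → ℤ) × (Fin s → ℤ) | q.1 i ≠ 0 ∧ |q.1 i| ≤ B ∧ (∀ j, |q.1 j| ≤ |q.1 i|) ∧
      0 ≤ q.2 i ∧ q.2 i < |q.1 i| ∧ (∀ j, |mnr q.1 q.2 i j| ≤ D) ∧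
      ∃ j, mnr q.1 q.2 i j ≠ 0}

theorem pav_comp {s B D g : ℕ} (hg : 1 ≤ g) (x z : Fin s → ℤ) (hB : ∀ j, |x j| ≤ B)
    (h0 : dm x z ≠ 0) (hD : dm x z ≤ D) (hk : ∃ k : ℤ, ∀ j, (g : ℤ) ∣ z j - k * x j) :
    ∃ (i : Fin s) (w : Fin s → ℤ) (t : ℤ), (x, w) ∈ PS i B (D / g) ∧
      ∀ j, z j = g * w j + t * x j := by
  obtain ⟨k, hk⟩ := hk
  choose w hw using hk
  have hgz : (g : ℤ) ≠ 0 := by exact_mod_cast (by omega : g ≠ 0)
  have hne : ∃ a b, mnr x z a b ≠ 0 := by
    by_contra hcon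
    push Not at hcon
    apply h0
    unfold dm
    rw [← bot_eq_zero, Finset.sup_eq_bot_iff]
    intro p _
    rw [hcon, Int.natAbs_zero]
    rfl
  obtain ⟨a, b, hab⟩ := hne
  have : Nonempty (Fin s) := ⟨a⟩
  obtain ⟨i, hi⟩ := Finite.exists_max fun j => |x j|
  have hxi : x i ≠ 0 := by
    intro h
    have h0 : ∀ j, x j = 0 := by
      intro j
      have h1 := hi j
      simp only [h, abs_zero] at h1
      exact abs_nonpos_iff.1 h1
    apply hab
    unfold mnr
    rw [h0 a, h0 b, zero_mul, zero_mul, sub_zero]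
  have hzw : ∀ j, z j = g * w j + k * x j := fun j => by linarith [hw j]
  have hm : ∀ j, (g : ℤ) * mnr x (fun j => w j - w i / x i * x j) i j = mnr x z i j := by
    intro j
    unfold mnr
    rw [hzw i, hzw j]
    ring
  have hzi : w i - w i / x i * x i = w i % x i := by
    rw [Int.emod_def]
    ring
  refine ⟨i, fun j => w j - w i / x i * x j, k + g * (w i / x i), ?_, ?_⟩
  · refine ⟨hxi, hB i, hi, ?_, ?_, ?_, ?_⟩
    · change 0 ≤ w i - w i / x i * x i
      rw [hzi]
      exact Int.emod_nonneg _ hxi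
    · change w i - w i / x i * x i < |x i|
      rw [hzi]
      exact Int.emod_lt_abs _ hxi
    · intro j
      have h1 : (mnr x z i j).natAbs ≤ D :=
        (Finset.le_sup (f := fun p : Fin s × Fin s => (mnr x z p.1 p.2).natAbs)
          (Finset.mem_univ (i, j))).trans hD
      rw [← hm j, Int.natAbs_mul, Int.natAbs_natCast] at h1
      have h2 : (mnr x (fun j => w j - w i / x i * x j) i j).natAbs ≤ D / g := by
        rw [Nat.le_div_iff_mul_le (by omega), mul_comm]
        exact h1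
      rw [Int.abs_eq_natAbs]
      exact_mod_cast h2
    · by_contra hcon
      push Not at hcon
      apply hab
      have h1 : ∀ j, x i * z j = x j * z i := by
        intro j
        have h2 := hcon j
        have h3 := hm j
        rw [h2, mul_zero] at h3
        unfold mnr at h3
        linarith
      have h3 : x i * mnr x z a b = 0 := by
        unfold mnr
        calc x i * (x a * z b - x b * z a) = x a * (x i * z b) - x b * (x i * z a) := by ring
          _ = x a * (x b * z i) - x b * (x a * z i) := by rw [h1 b, h1 a]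
          _ = 0 := by ring
      exact (mul_eq_zero.1 h3).resolve_left hxi
  · intro j
    rw [hzw j]
    ring

open Classical in
/-- the vectors over a pair -/
noncomputable def fib (s B g : ℕ) (q : (Fin s → ℤ) × (Fin s → ℤ)) : Finset (Fin s → ℤ) :=
  (vb s B).filter fun z => ∃ t : ℤ, ∀ j, z j = g * q.2 j + t * q.1 j

theorem fib_card {s B D g : ℕ} (i : Fin s) (q : (Fin s → ℤ) × (Fin s → ℤ))
    (hq : q ∈ PS i B D) : (fib s B g q).card * (q.1 i).natAbs ≤ 3 * B := by
  classical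
  obtain ⟨h0, hB, -⟩ := hq
  set b : ℤ := |q.1 i| with hb
  have hb0 : 0 < b := abs_pos.2 h0
  have h1 : (fib s B g q).card ≤ (Finset.Icc (0 : ℤ) (2 * B / b)).card := by
    refine Finset.card_le_card_of_injOn (fun z => (z i + B) / b) ?_ ?_
    · intro z hz
      have hz1 := (Finset.mem_filter.1 (Finset.mem_coe.1 hz)).1
      have hz2 := Finset.mem_Icc.1 (Fintype.mem_piFinset.1 hz1 i)
      rw [Finset.mem_coe, Finset.mem_Icc]
      constructor
      · exact Int.ediv_nonneg (by linarith [hz2.1]) hb0.le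
      · exact Int.ediv_le_ediv hb0 (by linarith [hz2.2])
    · intro z hz z' hz' heq
      obtain ⟨t, ht⟩ := (Finset.mem_filter.1 (Finset.mem_coe.1 hz)).2
      obtain ⟨t', ht'⟩ := (Finset.mem_filter.1 (Finset.mem_coe.1 hz')).2
      have heq' : (z i + B) / b = (z' i + B) / b := heq
      have hmod : (z i + B) % b = (z' i + B) % b := by
        apply Int.ModEq.add_right
        have hd : b ∣ z' i - z i := by
          rw [hb, abs_dvd, ht i, ht' i]
          exact ⟨t' - t, by ring⟩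
        exact Int.modEq_iff_dvd.2 hd
      have h2 := Int.emod_add_mul_ediv (z i + B) b
      have h3 := Int.emod_add_mul_ediv (z' i + B) b
      rw [heq', hmod] at h2
      have h4 : z i = z' i := by linarith
      have h5 : t = t' := by
        rw [ht i, ht' i] at h4
        exact mul_right_cancel₀ h0 (by linarith)
      funext j
      rw [ht j, ht' j, h5]
  rw [Int.card_Icc] at h1
  have h2 : (0 : ℤ) ≤ 2 * B / b := Int.ediv_nonneg (by positivity) hb0.le
  have h3 : ((fib s B g q).card : ℤ) ≤ 2 * B / b + 1 := by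
    have h4 : ((2 * (B : ℤ) / b + 1 - 0).toNat : ℤ) = 2 * B / b + 1 := by
      rw [Int.toNat_of_nonneg (by linarith)]
      ring
    calc ((fib s B g q).card : ℤ) ≤ ((2 * (B : ℤ) / b + 1 - 0).toNat : ℤ) := by exact_mod_cast h1
      _ = _ := h4
  have h5 : 2 * (B : ℤ) / b * b ≤ 2 * B := Int.ediv_mul_le _ hb0.ne'
  have h6 : ((fib s B g q).card : ℤ) * b ≤ 3 * B := by
    calc ((fib s B g q).card : ℤ) * b ≤ (2 * B / b + 1) * b := mul_le_mul_of_nonneg_right h3 hb0.le
      _ = 2 * B / b * b + b := by ring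
      _ ≤ 3 * B := by linarith
  rw [hb, Int.abs_eq_natAbs] at h6
  exact_mod_cast h6

theorem tel (a B : ℕ) (ha : 1 ≤ a) (hB : a ≤ B) :
    (1 : ℝ) / a = (∑ b ∈ Finset.Icc 1 B, if a ≤ b then 1 / ((b : ℝ) * (b + 1)) else 0) +
      1 / (B + 1) := by
  induction B, hB using Nat.le_induction with
  | base =>
    rw [Finset.sum_eq_single a]
    · rw [if_pos le_rfl]
      have : (a : ℝ) ≠ 0 := by exact_mod_cast (by omega : a ≠ 0)
      have h2 : (a : ℝ) + 1 ≠ 0 := by positivity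
      field_simp
      ring
    · intro b hb hne
      rw [if_neg]
      have := (Finset.mem_Icc.1 hb).2
      omega
    · intro h
      exact absurd (Finset.mem_Icc.2 ⟨ha, le_rfl⟩) h
  | succ B hB ih =>
    rw [Finset.sum_Icc_succ_top (by omega), if_pos (by omega), ih]
    push_cast
    have h1 : (B : ℝ) + 1 ≠ 0 := by positivity
    have h2 : (B : ℝ) + 1 + 1 ≠ 0 := by positivity
    field_simp
    ring

/-- **PAV.** -/
theorem pf_PAV (hPAI : T_PAI) : T_PAV := by
  classical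
  intro n hn
  refine ⟨12 * n * 9 ^ (n - 1), by positivity, ?_⟩
  intro B D g hg
  set D1 := D / g with hD1
  set E : ℕ := (9 * D1) ^ (n - 1) with hE
  have hfin : ∀ (i : Fin n) (b : ℕ), (PS i b D1).Finite := fun i b => (hPAI n i b D1).1
  have hcnt : ∀ (i : Fin n) (b : ℕ), (hfin i b).toFinset.card ≤ 2 * b ^ 2 * E := by
    intro i b
    rw [← Set.ncard_eq_toFinset_card _ (hfin i b)]
    exact (hPAI n i b D1).2
  have hsub : ((vb n B ×ˢ vb n B).filter fun q => dm q.1 q.2 ≠ 0 ∧ dm q.1 q.2 ≤ D ∧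
      ∃ k : ℤ, ∀ j, (g : ℤ) ∣ q.2 j - k * q.1 j) ⊆
      (Finset.univ : Finset (Fin n)).biUnion fun i => (hfin i B).toFinset.biUnion fun x =>
        (fib n B g x).image fun z => (x.1, z) := by
    intro q hq
    rw [Finset.mem_filter] at hq
    obtain ⟨hq1, hq2, hq3, hq4⟩ := hq
    obtain ⟨hv, hz⟩ := Finset.mem_product.1 hq1
    have hB : ∀ j, |q.1 j| ≤ B := by
      intro j
      have h1 := Fintype.mem_piFinset.1 hv j
      rw [Finset.mem_Icc] at h1
      exact abs_le.2 h1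
    obtain ⟨i, w, t, hw, ht⟩ := pav_comp hg q.1 q.2 hB hq2 hq3 hq4
    rw [Finset.mem_biUnion]
    refine ⟨i, Finset.mem_univ i, ?_⟩
    rw [Finset.mem_biUnion]
    refine ⟨(q.1, w), (Set.Finite.mem_toFinset _).2 hw, ?_⟩
    rw [Finset.mem_image]
    exact ⟨q.2, Finset.mem_filter.2 ⟨hz, t, ht⟩, rfl⟩
  have hEreal : (E : ℝ) ≤ 9 ^ (n - 1) * ((D : ℝ) / g) ^ (n - 1) := by
    rw [hE, Nat.cast_pow, Nat.cast_mul, ← mul_pow]
    refine pow_le_pow_left₀ (by positivity) ?_ _
    have h1 : ((D1 : ℕ) : ℝ) ≤ (D : ℝ) / g := Nat.cast_div_le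
    push_cast
    linarith
  have hsum : ∀ i : Fin n, ∑ x ∈ (hfin i B).toFinset, (1 : ℝ) / (x.1 i).natAbs ≤ 4 * B * E := by
    intro i
    have hE0 : (0 : ℝ) ≤ E := Nat.cast_nonneg _
    have e1 : ∑ x ∈ (hfin i B).toFinset, (1 : ℝ) / (x.1 i).natAbs =
        (∑ b ∈ Finset.Icc 1 B, 1 / ((b : ℝ) * (b + 1)) *
          (((hfin i B).toFinset.filter fun x => (x.1 i).natAbs ≤ b).card : ℝ)) +
          ((hfin i B).toFinset.card : ℝ) * (1 / (B + 1)) := by
      have e2 : ∀ x ∈ (hfin i B).toFinset, (1 : ℝ) / (x.1 i).natAbs =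
          (∑ b ∈ Finset.Icc 1 B, if (x.1 i).natAbs ≤ b then 1 / ((b : ℝ) * (b + 1)) else 0) +
            1 / (B + 1) := by
        intro x hx
        obtain ⟨h0, hB, -⟩ := (Set.Finite.mem_toFinset _).1 hx
        refine tel _ _ (Int.natAbs_pos.2 h0) ?_
        rw [Int.abs_eq_natAbs] at hB
        exact_mod_cast hB
      rw [Finset.sum_congr rfl e2, Finset.sum_add_distrib, Finset.sum_const, nsmul_eq_mul,
        Finset.sum_comm]
      congr 1
      refine Finset.sum_congr rfl fun b _ => ?_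
      rw [← Finset.sum_filter, Finset.sum_const, nsmul_eq_mul, mul_comm]
    rw [e1]
    have h1 : ∑ b ∈ Finset.Icc 1 B, 1 / ((b : ℝ) * (b + 1)) *
        (((hfin i B).toFinset.filter fun x => (x.1 i).natAbs ≤ b).card : ℝ) ≤ 2 * B * E := by
      have h2 : ∀ b ∈ Finset.Icc 1 B, 1 / ((b : ℝ) * (b + 1)) *
          (((hfin i B).toFinset.filter fun x => (x.1 i).natAbs ≤ b).card : ℝ) ≤ 2 * E := by
        intro b hb
        have hb1 : (1 : ℝ) ≤ b := by exact_mod_cast (Finset.mem_Icc.1 hb).1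
        have h3 : ((hfin i B).toFinset.filter fun x => (x.1 i).natAbs ≤ b).card ≤
            2 * b ^ 2 * E := by
          refine le_trans (Finset.card_le_card ?_) (hcnt i b)
          intro x hx
          rw [Finset.mem_filter] at hx
          obtain ⟨h0, hB, hr⟩ := (Set.Finite.mem_toFinset _).1 hx.1
          rw [Set.Finite.mem_toFinset]
          refine ⟨h0, ?_, hr⟩
          rw [Int.abs_eq_natAbs]
          exact_mod_cast hx.2
        have h4 : (((hfin i B).toFinset.filter fun x => (x.1 i).natAbs ≤ b).card : ℝ) ≤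
            2 * (b : ℝ) ^ 2 * E := by exact_mod_cast h3
        rw [div_mul_eq_mul_div, one_mul, div_le_iff₀ (by positivity)]
        refine h4.trans ?_
        nlinarith [mul_nonneg (by linarith : (0 : ℝ) ≤ b) hE0]
      refine (Finset.sum_le_sum h2).trans ?_
      rw [Finset.sum_const, Nat.card_Icc, nsmul_eq_mul, Nat.add_sub_cancel]
      apply le_of_eq
      ring
    have h5 : ((hfin i B).toFinset.card : ℝ) * (1 / (B + 1)) ≤ 2 * B * E := by
      have h6 : ((hfin i B).toFinset.card : ℝ) ≤ 2 * (B : ℝ) ^ 2 * E := by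
        exact_mod_cast hcnt i B
      have hB0 : (0 : ℝ) ≤ B := Nat.cast_nonneg _
      rw [mul_one_div, div_le_iff₀ (by positivity)]
      refine h6.trans ?_
      nlinarith [mul_nonneg hB0 hE0]
    linarith
  have hmain : (((vb n B ×ˢ vb n B).filter fun q => dm q.1 q.2 ≠ 0 ∧ dm q.1 q.2 ≤ D ∧
      ∃ k : ℤ, ∀ j, (g : ℤ) ∣ q.2 j - k * q.1 j).card : ℝ) ≤
      ∑ i : Fin n, ∑ x ∈ (hfin i B).toFinset, 3 * B * ((1 : ℝ) / (x.1 i).natAbs) := by
    have h1 : (((vb n B ×ˢ vb n B).filter fun q => dm q.1 q.2 ≠ 0 ∧ dm q.1 q.2 ≤ D ∧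
        ∃ k : ℤ, ∀ j, (g : ℤ) ∣ q.2 j - k * q.1 j).card) ≤
        ∑ i : Fin n, ∑ x ∈ (hfin i B).toFinset, (fib n B g x).card := by
      refine (Finset.card_le_card hsub).trans (Finset.card_biUnion_le.trans ?_)
      refine Finset.sum_le_sum fun i _ => Finset.card_biUnion_le.trans ?_
      exact Finset.sum_le_sum fun x _ => Finset.card_image_le
    have h2 : ((∑ i : Fin n, ∑ x ∈ (hfin i B).toFinset, (fib n B g x).card : ℕ) : ℝ) ≤
        ∑ i : Fin n, ∑ x ∈ (hfin i B).toFinset, 3 * B * ((1 : ℝ) / (x.1 i).natAbs) := by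
      push_cast
      refine Finset.sum_le_sum fun i _ => Finset.sum_le_sum fun x hx => ?_
      have hx' := (Set.Finite.mem_toFinset _).1 hx
      have h3 := fib_card (g := g) i x hx'
      have h4 : ((fib n B g x).card : ℝ) * ((x.1 i).natAbs : ℝ) ≤ 3 * B := by exact_mod_cast h3
      have h5 : (0 : ℝ) < ((x.1 i).natAbs : ℝ) := by
        exact_mod_cast Int.natAbs_pos.2 hx'.1
      rw [mul_one_div, le_div_iff₀ h5]
      exact h4
    calc (((vb n B ×ˢ vb n B).filter fun q => dm q.1 q.2 ≠ 0 ∧ dm q.1 q.2 ≤ D ∧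
        ∃ k : ℤ, ∀ j, (g : ℤ) ∣ q.2 j - k * q.1 j).card : ℝ) ≤
        ((∑ i : Fin n, ∑ x ∈ (hfin i B).toFinset, (fib n B g x).card : ℕ) : ℝ) := by
          exact_mod_cast h1
      _ ≤ _ := h2
  refine hmain.trans ?_
  have hB0 : (0 : ℝ) ≤ B := Nat.cast_nonneg _
  have h7 : ∑ i : Fin n, ∑ x ∈ (hfin i B).toFinset, 3 * (B : ℝ) * ((1 : ℝ) / (x.1 i).natAbs) ≤
      ∑ _i : Fin n, 3 * (B : ℝ) * (4 * B * E) := by
    refine Finset.sum_le_sum fun i _ => ?_
    rw [← Finset.mul_sum]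
    exact mul_le_mul_of_nonneg_left (hsum i) (by positivity)
  refine h7.trans ?_
  rw [Finset.sum_const, Finset.card_univ, Fintype.card_fin, nsmul_eq_mul]
  calc (n : ℝ) * (3 * B * (4 * B * E)) = 12 * n * B ^ 2 * E := by ring
    _ ≤ 12 * n * B ^ 2 * (9 ^ (n - 1) * ((D : ℝ) / g) ^ (n - 1)) :=
        mul_le_mul_of_nonneg_left hEreal (by positivity)
    _ = _ := by ring

end Pool.Agent.H82.HFQ
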