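import Pool.Agent.H34.FQ.Targets

/-!
# A lower bound for the number of local classes (row UCL of the board `hfq_modules`, helper82)
-/

set_option autoImplicit false

open Finset Pool.Agent.H32.RQ Pool.Agent.H34.FQ

namespace Pool.Agent.H82.HFQ

/-- a product over a larger set of primes -/
theorem prod_fac (R : ℕ) (hR : R ≠ 0) (P : Finset ℕ) (hP : ∀ p : ℕ, p.Prime → p ∣ R → p ∈ P) :
    ∏ p ∈ P, p ^ R.factorization p = R := by
  have h1 := Nat.prod_factorization_pow_eq_self hR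
  rw [Finsupp.prod_of_support_subset (s := P)] at h1
  · exact h1
  · intro p hp
    rw [Nat.support_factorization] at hp
    exact hP p (Nat.prime_of_mem_primeFactors hp) (Nat.dvd_of_mem_primeFactors hp)
  · intro p _
    exact pow_zero p

theorem ucl_prod {n : ℕ} {F : Mon (n + 2) → ℤ} (N : NF F) (f : Mon (n + 2) → ℤ) (hCR1 : T_CR1)
    (m W₁ : ℕ) (hm : 1 ≤ m) (hW : 1 ≤ W₁) (S : Finset ℕ) (k : ℕ → ℕ)
    (hS : ∀ p ∈ S, p.Prime) (hk : ∀ p ∈ S, ∀ a : ℕ, (p : ℤ) ^ a ∣ N.mu * m → 1 ≤ a → a + 1 ≤ k p)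
    (hWm : ∀ p : ℕ, p.Prime → p ∣ W₁ → ¬ (p : ℤ) ∣ N.mu * m) (hWS : ∀ p ∈ S, ¬ p ∣ W₁) :
    (UU N m (W₁ * ∏ p ∈ S, p ^ k p) f).card =
      (UU N m W₁ f).card * ∏ p ∈ S, (UU N m (p ^ k p) f).card := by
  classical
  induction S using Finset.induction_on with
  | empty => simp
  | insert p0 S hp0 ih =>
    have ih' := ih (fun p hp => hS p (Finset.mem_insert_of_mem hp))
      (fun p hp => hk p (Finset.mem_insert_of_mem hp))
      (fun p hp => hWS p (Finset.mem_insert_of_mem hp))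
    have hpp0 := hS p0 (Finset.mem_insert_self _ _)
    have hcop : Nat.Coprime (W₁ * ∏ p ∈ S, p ^ k p) (p0 ^ k p0) := by
      apply Nat.Coprime.pow_right
      rw [Nat.coprime_comm, Nat.Prime.coprime_iff_not_dvd hpp0]
      intro h
      rcases (Nat.Prime.dvd_mul hpp0).1 h with h | h
      · exact hWS p0 (Finset.mem_insert_self _ _) h
      · obtain ⟨q, hq, hqd⟩ := (Prime.dvd_finsetProd_iff hpp0.prime _).1 h
        have h2 := hpp0.dvd_of_dvd_pow hqd
        have h3 := (Nat.prime_dvd_prime_iff_eq hpp0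
          (hS q (Finset.mem_insert_of_mem hq))).1 h2
        exact hp0 (h3 ▸ hq)
    have hpos : ∀ p ∈ insert p0 S, 1 ≤ p ^ k p := fun p hp =>
      Nat.one_le_pow _ _ (hS p hp).pos
    have hpos2 : 1 ≤ ∏ p ∈ S, p ^ k p :=
      Nat.one_le_iff_ne_zero.2 (Finset.prod_ne_zero_iff.2 (fun p hp =>
        Nat.one_le_iff_ne_zero.1 (hpos p (Finset.mem_insert_of_mem hp))))
    have e1 : W₁ * ∏ p ∈ insert p0 S, p ^ k p = (W₁ * ∏ p ∈ S, p ^ k p) * p0 ^ k p0 := by
      rw [Finset.prod_insert hp0]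
      ring
    have hcond : ∀ p a : ℕ, p.Prime → p ∣ (W₁ * ∏ p ∈ S, p ^ k p) * p0 ^ k p0 →
        (p : ℤ) ^ a ∣ N.mu * m → p ^ (a + 1) ∣ (W₁ * ∏ p ∈ S, p ^ k p) * p0 ^ k p0 := by
      intro p a hp hpd ha
      rcases Nat.eq_zero_or_pos a with rfl | ha0
      · simpa using hpd
      · have hpm : (p : ℤ) ∣ N.mu * m := (dvd_pow_self (p : ℤ) ha0.ne').trans ha
        rw [← e1] at hpd ⊢
        have hpS : p ∈ insert p0 S := by
          rcases (Nat.Prime.dvd_mul hp).1 hpd with h | h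
          · exact absurd hpm (hWm p hp h)
          · obtain ⟨q, hq, hqd⟩ := (Prime.dvd_finsetProd_iff hp.prime _).1 h
            have h2 := hp.dvd_of_dvd_pow hqd
            have h3 := (Nat.prime_dvd_prime_iff_eq hp (hS q hq)).1 h2
            exact h3 ▸ hq
        have h4 := hk p hpS a ha ha0
        exact ((pow_dvd_pow p h4).trans (Finset.dvd_prod_of_mem (fun p => p ^ k p) hpS)).trans
          (Dvd.intro_left _ rfl)
    rw [e1, hCR1 n F N f m _ _ hm (Nat.one_le_iff_ne_zero.2 (Nat.mul_ne_zero (by omega)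
      (by omega))) (hpos p0 (Finset.mem_insert_self _ _)) hcop hcond, ih',
      Finset.prod_insert hp0]
    ring

/-- **UCL.** -/
theorem pf_UCL (hHC1 : T_HC1) (hCR1 : T_CR1) (hUC2 : T_UC2) : T_UCL := by
  classical
  intro n F N t w₀ hn hmu
  set P : Finset ℕ := (Finset.range (w₀ + 1)).filter Nat.Prime with hP
  have hPp : ∀ p ∈ P, p.Prime := fun p hp => (Finset.mem_filter.1 hp).2
  have hPw : ∀ p ∈ P, p ≤ w₀ := fun p hp => by
    have := Finset.mem_range.1 (Finset.mem_filter.1 hp).1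
    omega
  have hPm : ∀ p : ℕ, p.Prime → p ≤ w₀ → p ∈ P := fun p hp h =>
    Finset.mem_filter.2 ⟨Finset.mem_range.2 (by omega), hp⟩
  set Cst : ℕ := ∏ p ∈ P, p ^ (2 * t * n) with hCst
  have hCst0 : 0 < Cst := Finset.prod_pos (fun p hp => pow_pos (hPp p hp).pos _)
  have hCstR : (0 : ℝ) < Cst := by exact_mod_cast hCst0
  refine ⟨1 / (2 * Cst), by positivity, ?_⟩
  intro W₀ W₁ _ _ f hW0 hW0t hW1 hRP hA
  have hW00 : W₀ ≠ 0 := NeZero.ne W₀
  have hW10 : W₁ ≠ 0 := NeZero.ne W₁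
  have hex : ∀ p ∈ P, ∃ j, RPj N t p j f := fun p hp => hRP p (hPp p hp) (hPw p hp)
  choose! j hj using hex
  set m : ℕ := ∏ p ∈ P, p ^ j p with hm
  have hm0 : 0 < m := Finset.prod_pos (fun p hp => pow_pos (hPp p hp).pos _)
  have hjt : ∀ p ∈ P, j p < t := by
    intro p hp
    obtain ⟨u, hu, -⟩ := hj p hp
    by_contra hlt
    push Not at hlt
    exact hu ((pow_dvd_pow (p : ℤ) hlt).trans (Dvd.intro_left _ rfl))
  have hmle : m ≤ w₀.factorial ^ t := by
    have h1 : m ≤ (∏ p ∈ P, p) ^ t := by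
      rw [← Finset.prod_pow]
      exact Finset.prod_le_prod' (fun p hp => Nat.pow_le_pow_right (hPp p hp).pos (hjt p hp).le)
    have h2 : ∏ p ∈ P, p ≤ w₀.factorial := by
      rw [← Finset.prod_Ico_id_eq_factorial]
      refine Finset.prod_le_prod_of_subset_of_one_le' ?_ ?_
      · intro p hp
        rw [Finset.mem_Ico]
        have := hPw p hp
        exact ⟨(hPp p hp).one_lt.le, by omega⟩
      · intro p hp _
        exact (Finset.mem_Ico.1 hp).1
    exact h1.trans (Nat.pow_le_pow_left h2 t)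
  refine ⟨m, hm0, hmle, ?_⟩
  set μ' : ℕ := N.mu.natAbs with hμ'
  have hμ0 : μ' ≠ 0 := Int.natAbs_ne_zero.2 N.mu0
  have hmuZ : ∀ d : ℕ, (d : ℤ) ∣ N.mu * m ↔ d ∣ μ' * m := by
    intro d
    rw [← Int.natCast_dvd_natCast, hμ', Nat.cast_mul]
    constructor
    · intro h
      have h2 := (Int.natCast_dvd.1 h)
      rw [Int.natAbs_mul, Int.natAbs_natCast] at h2
      exact_mod_cast h2
    · intro h
      have h2 : d ∣ N.mu.natAbs * m := by exact_mod_cast h
      rw [Int.natCast_dvd, Int.natAbs_mul, Int.natAbs_natCast]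
      exact h2
  have hmP : ∀ p : ℕ, p.Prime → p ∣ m → p ∈ P := by
    intro p hp h
    obtain ⟨q, hq, hqd⟩ := (Prime.dvd_finsetProd_iff hp.prime _).1 h
    have h2 := hp.dvd_of_dvd_pow hqd
    have h3 := (Nat.prime_dvd_prime_iff_eq hp (hPp q hq)).1 h2
    exact h3 ▸ hq
  have hμP : ∀ p : ℕ, p.Prime → p ∣ μ' → p ∈ P := by
    intro p hp h
    exact hPm p hp (hmu p hp (Int.natCast_dvd.2 h))
  have hμmP : ∀ p : ℕ, p.Prime → p ∣ μ' * m → p ∈ P := by
    intro p hp h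
    rcases (Nat.Prime.dvd_mul hp).1 h with h | h
    · exact hμP p hp h
    · exact hmP p hp h
  have hμm0 : μ' * m ≠ 0 := Nat.mul_ne_zero hμ0 hm0.ne'
  set R0 : ℕ := (μ' * m) ^ 2 * W₀ with hR0
  have hR00 : R0 ≠ 0 := Nat.mul_ne_zero (pow_ne_zero 2 hμm0) hW00
  have hR0P : ∀ p : ℕ, p.Prime → p ∣ R0 → p ∈ P := by
    intro p hp h
    rcases (Nat.Prime.dvd_mul hp).1 h with h | h
    · exact hμmP p hp (hp.dvd_of_dvd_pow h)
    · exact hPm p hp (hW0 p hp h)
  have hRm : Rm N m (W₀ * W₁) = W₁ * R0 := by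
    unfold Rm
    rw [hR0]
    ring
  have hfR0 : ∀ p, R0.factorization p = 2 * (μ' * m).factorization p + W₀.factorization p := by
    intro p
    rw [hR0, Nat.factorization_mul (pow_ne_zero 2 hμm0) hW00, Nat.factorization_pow]
    simp
  have hWm : ∀ p : ℕ, p.Prime → p ∣ W₁ → ¬ (p : ℤ) ∣ N.mu * m := by
    intro p hp h h2
    have h3 := hPw p (hμmP p hp ((hmuZ p).1 h2))
    have h4 := hW1 p hp h
    omega
  have hWS : ∀ p ∈ P, ¬ p ∣ W₁ := by
    intro p hp h
    have h3 := hPw p hp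
    have h4 := hW1 p (hPp p hp) h
    omega
  -- the exponents
  have hat : ∀ p ∈ P, (μ' * m).factorization p < t := by
    intro p hp
    have hpp := hPp p hp
    obtain ⟨u, hu, -⟩ := hj p hp
    by_contra hlt
    push Not at hlt
    have h1 : p ^ t ∣ μ' * m := (hpp.pow_dvd_iff_le_factorization hμm0).2 hlt
    have h2 : m = p ^ j p * ∏ q ∈ P.erase p, q ^ j q := (Finset.mul_prod_erase P _ hp).symm
    have h3 : Nat.Coprime (p ^ t) (∏ q ∈ P.erase p, q ^ j q) := by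
      apply Nat.Coprime.pow_left
      rw [Nat.Prime.coprime_iff_not_dvd hpp]
      intro h
      obtain ⟨q, hq, hqd⟩ := (Prime.dvd_finsetProd_iff hpp.prime _).1 h
      have h4 := hpp.dvd_of_dvd_pow hqd
      have h5 := (Nat.prime_dvd_prime_iff_eq hpp (hPp q (Finset.mem_of_mem_erase hq))).1 h4
      exact (Finset.ne_of_mem_erase hq) h5.symm
    rw [h2, ← mul_assoc] at h1
    have h4 := h3.dvd_of_dvd_mul_right h1
    apply hu
    have h5 : ((p ^ t : ℕ) : ℤ) ∣ N.mu * ((p ^ j p : ℕ) : ℤ) := by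
      rw [Int.natCast_dvd, Int.natAbs_mul, Int.natAbs_natCast]
      exact h4
    push_cast at h5
    exact h5
  have hk : ∀ p ∈ P, ∀ a : ℕ, (p : ℤ) ^ a ∣ N.mu * m → 1 ≤ a → a + 1 ≤ R0.factorization p := by
    intro p hp a ha ha1
    have hpp := hPp p hp
    have h1 : p ^ a ∣ μ' * m := (hmuZ (p ^ a)).1 (by push_cast; exact ha)
    have h2 := (hpp.pow_dvd_iff_le_factorization hμm0).1 h1
    rw [hfR0]
    omega
  have hprod := ucl_prod N f hCR1 m W₁ hm0 (Nat.one_le_iff_ne_zero.2 hW10) P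
    (fun p => R0.factorization p) hPp hk hWm hWS
  rw [prod_fac R0 hR00 P hR0P, ← hRm] at hprod
  rw [hUC2 n F N f m W₁ hWm] at hprod
  -- one prime
  have hone : ∀ p ∈ P, p ^ (R0.factorization p * n) ≤
      (UU N m (p ^ R0.factorization p) f).card * p ^ (2 * t * n) * p ^ W₀.factorization p := by
    intro p hp
    have hpp := hPp p hp
    have h2 : m = p ^ j p * ∏ q ∈ P.erase p, q ^ j q := (Finset.mul_prod_erase P _ hp).symm
    have hnd : ¬ p ∣ ∏ q ∈ P.erase p, q ^ j q := by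
      intro h
      obtain ⟨q, hq, hqd⟩ := (Prime.dvd_finsetProd_iff hpp.prime _).1 h
      have h4 := hpp.dvd_of_dvd_pow hqd
      have h5 := (Nat.prime_dvd_prime_iff_eq hpp (hPp q (Finset.mem_of_mem_erase hq))).1 h4
      exact (Finset.ne_of_mem_erase hq) h5.symm
    have hW : 2 * t ≤ W₀.factorization p :=
      (hpp.pow_dvd_iff_le_factorization hW00).1 (hW0t p hpp (hPw p hp))
    have hfp := hfR0 p
    have hatp := hat p hp
    have h3 := hHC1 n F N f p t (j p) (R0.factorization p) _ hn hpp hnd (by omega) (hj p hp)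
    rw [← h2] at h3
    refine le_trans ?_ (Nat.mul_le_mul_right _ (Nat.mul_le_mul_right _ h3))
    rw [← pow_add, ← pow_add]
    apply Nat.pow_le_pow_right hpp.pos
    obtain ⟨n', rfl⟩ : ∃ n', n = n' + 1 := ⟨n - 1, by omega⟩
    rw [Nat.add_sub_cancel]
    set v := R0.factorization p with hv
    obtain ⟨v', hv'⟩ : ∃ v', v = v' + 2 * t := ⟨v - 2 * t, by omega⟩
    rw [hv', Nat.add_sub_cancel]
    have e1 : (v' + 2 * t) * (n' + 1) = v' * n' + 2 * t * n' + (v' + 2 * t) := by ring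
    have e2 : 2 * t * (n' + 1) = 2 * t * n' + 2 * t := by ring
    rw [e1, e2]
    omega
  have hall : R0 ^ n ≤ (∏ p ∈ P, (UU N m (p ^ R0.factorization p) f).card) * Cst * W₀ := by
    have e1 : R0 ^ n = ∏ p ∈ P, p ^ (R0.factorization p * n) := by
      conv_lhs => rw [← prod_fac R0 hR00 P hR0P]
      rw [← Finset.prod_pow]
      refine Finset.prod_congr rfl (fun p _ => ?_)
      rw [← pow_mul]
    have e2 : W₀ = ∏ p ∈ P, p ^ W₀.factorization p :=
      (prod_fac W₀ hW00 P (fun p hp h => hPm p hp (hW0 p hp h))).symm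
    rw [e1, hCst]
    conv_rhs => rw [e2]
    rw [← Finset.prod_mul_distrib, ← Finset.prod_mul_distrib]
    exact Finset.prod_le_prod' hone
  -- the end
  have hfin : (W₁ * R0) ^ n ≤ 2 * Cst * (W₀ * W₁) * (UU N m (Rm N m (W₀ * W₁)) f).card := by
    rw [hprod]
    obtain ⟨n', rfl⟩ : ∃ n', n = n' + 1 := ⟨n - 1, by omega⟩
    rw [Nat.add_sub_cancel] at hA
    calc (W₁ * R0) ^ (n' + 1) = W₁ ^ n' * W₁ * R0 ^ (n' + 1) := by
          rw [mul_pow, pow_succ W₁]
      _ ≤ (2 * aN N W₁ (cf (ZMod W₁) f)) * W₁ *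
          ((∏ p ∈ P, (UU N m (p ^ R0.factorization p) f).card) * Cst * W₀) :=
          Nat.mul_le_mul (Nat.mul_le_mul_right _ hA) hall
      _ = _ := by ring
  have hfinR : ((W₁ * R0 : ℕ) : ℝ) ^ n ≤
      2 * Cst * ((W₀ * W₁ : ℕ) : ℝ) * ((UU N m (Rm N m (W₀ * W₁)) f).card : ℝ) := by
    exact_mod_cast hfin
  have hWW : (0 : ℝ) < ((W₀ * W₁ : ℕ) : ℝ) := by
    exact_mod_cast Nat.mul_pos (Nat.pos_of_ne_zero hW00) (Nat.pos_of_ne_zero hW10)
  rw [div_le_iff₀ hWW, div_mul_eq_mul_div, one_mul, div_le_iff₀ (by positivity)]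
  rw [hRm] at hfinR ⊢
  linarith

end Pool.Agent.H82.HFQ
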